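import Pool.Agent.LibMST.Theory

set_option autoImplicit false

namespace Pool.Agent.LibMST

open Finset

section Trees

variable {V : Type*} [Fintype V] [DecidableEq V]

set_option linter.unusedSectionVars false

open Classical in
/-- The trees with edges in `E`, as pairs of a vertex set and an edge set. -/
noncomputable def TP (E : Finset (Sym2 V)) : Finset (Finset V × Finset (Sym2 V)) :=
  ((univ : Finset (Finset V)) ×ˢ E.powerset).filter (fun p => ∃ r, Grow r p.1 p.2)

theorem mem_TP {E : Finset (Sym2 V)} {p : Finset V × Finset (Sym2 V)} :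
    p ∈ TP E ↔ p.2 ⊆ E ∧ ∃ r, Grow r p.1 p.2 := by
  classical
  unfold TP
  rw [mem_filter, mem_product, mem_powerset]
  simp

theorem edge_card_coe (G : SimpleGraph V) (H : G.Subgraph) :
    Nat.card H.coe.edgeSet = H.edgeSet.ncard := by
  rw [← H.image_coe_edgeSet_coe, Set.ncard_image_of_injective _ (Sym2.map.injective Subtype.val_injective)]
  rfl

theorem tree_card (G : SimpleGraph V) (H : G.Subgraph) (hH : H.coe.IsTree) :
    H.edgeSet.ncard + 1 = H.verts.ncard := by
  have h := (SimpleGraph.isTree_iff_connected_and_card.mp hH).2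
  rw [edge_card_coe] at h
  rw [h]
  rfl

theorem exists_cross (G : SimpleGraph V) (H : G.Subgraph) (hH : H.coe.Connected) (C : Finset V)
    {r v : V} (hr : r ∈ C) (hrH : r ∈ H.verts) (hv : v ∉ C) (hvH : v ∈ H.verts) :
    ∃ x ∈ C, ∃ w, w ∉ C ∧ H.Adj x w := by
  obtain ⟨p⟩ := hH.preconnected ⟨r, hrH⟩ ⟨v, hvH⟩
  obtain ⟨d, _, h1, h2⟩ := p.exists_boundary_dart {z : H.verts | z.val ∈ C} hr hv
  exact ⟨d.fst.val, h1, d.snd.val, h2, d.adj⟩

theorem grow_of_tree (G : SimpleGraph V) (H : G.Subgraph) (hH : H.coe.IsTree) (C : Finset V)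
    (F : Finset (Sym2 V)) (hC : (C : Set V) = H.verts) (hF : (F : Set (Sym2 V)) = H.edgeSet) :
    ∃ r, Grow r C F := by
  classical
  obtain ⟨⟨r, hr⟩⟩ := hH.connected.nonempty
  have hcard : F.card + 1 = C.card := by
    have h := tree_card G H hH
    rw [← hC, ← hF, Set.ncard_coe_finset, Set.ncard_coe_finset] at h
    exact h
  -- grow as far as possible
  have key : ∀ k, k < C.card → ∃ C' B, Grow r C' B ∧ C' ⊆ C ∧ B ⊆ F ∧ C'.card = k + 1 := by
    intro k
    induction k with
    | zero =>
      intro _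
      refine ⟨{r}, ∅, Grow.base, ?_, empty_subset _, by simp⟩
      intro z hz
      rw [mem_singleton] at hz
      rw [hz, ← mem_coe, hC]
      exact hr
    | succ k ih =>
      intro hk
      obtain ⟨C', B, hg, hC', hB, hcard'⟩ := ih (by omega)
      have hne : ∃ v ∈ C, v ∉ C' := by
        by_contra hcon
        push Not at hcon
        have : C.card ≤ C'.card := card_le_card hcon
        omega
      obtain ⟨v, hvC, hvC'⟩ := hne
      obtain ⟨x, hx, w, hw, hadj⟩ := exists_cross G H hH.connected C' hg.root_mem hr hvC'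
        (by rw [← hC]; exact hvC)
      refine ⟨insert w C', insert s(x, w) B, hg.step hx hw, ?_, ?_, ?_⟩
      · apply insert_subset _ hC'
        rw [← mem_coe, hC]
        exact H.edge_vert hadj.symm
      · apply insert_subset _ hB
        rw [← mem_coe, hF]
        exact hadj
      · rw [card_insert_of_notMem hw, hcard']
  have hpos : 0 < C.card := by omega
  obtain ⟨C', B, hg, hC', hB, hcard'⟩ := key (C.card - 1) (by omega)
  have e1 : C' = C := eq_of_subset_of_card_le hC' (by omega)
  have e2 : B = F := by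
    apply eq_of_subset_of_card_le hB
    have := hg.card_eq
    omega
  exact ⟨r, e1 ▸ e2 ▸ hg⟩

theorem tree_of_grow (G : SimpleGraph V) {r : V} {C : Finset V} {F : Finset (Sym2 V)}
    (h : Grow r C F) (hF : ∀ e ∈ F, e ∈ G.edgeSet) :
    ∃ H : G.Subgraph, H.coe.IsTree ∧ H.verts = C ∧ H.edgeSet = F := by
  classical
  let H : G.Subgraph :=
    { verts := C
      Adj := fun a b => s(a, b) ∈ F
      adj_sub := fun {a b} hab => hF _ hab
      edge_vert := fun {a b} hab => h.edge_sub _ hab a (Sym2.mem_mk_left a b)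
      symm := ⟨fun a b hab => by rw [Sym2.eq_swap]; exact hab⟩ }
  have hverts : H.verts = C := rfl
  have hedge : H.edgeSet = F := by
    ext e
    induction e with
    | _ a b => rfl
  refine ⟨H, ?_, hverts, hedge⟩
  have hrC : r ∈ H.verts := h.root_mem
  have hreach : ∀ v ∈ C, ∃ hv : v ∈ H.verts, H.coe.Reachable ⟨r, hrC⟩ ⟨v, hv⟩ := by
    refine h.sub_of_closed (fun v => ∃ hv : v ∈ H.verts, H.coe.Reachable ⟨r, hrC⟩ ⟨v, hv⟩)
      ⟨hrC, SimpleGraph.Reachable.refl _⟩ ?_
    intro e he
    induction e with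
    | _ a b =>
      have haC : a ∈ H.verts := h.edge_sub _ he a (Sym2.mem_mk_left a b)
      have hbC : b ∈ H.verts := h.edge_sub _ he b (Sym2.mem_mk_right a b)
      have hadj : H.coe.Adj ⟨a, haC⟩ ⟨b, hbC⟩ := he
      by_cases h1 : H.coe.Reachable ⟨r, hrC⟩ ⟨a, haC⟩
      · left
        intro v hv
        rcases Sym2.mem_iff.mp hv with rfl | rfl
        · exact ⟨haC, h1⟩
        · exact ⟨hbC, h1.trans hadj.reachable⟩
      · right
        intro v hv
        rcases Sym2.mem_iff.mp hv with rfl | rfl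
        · rintro ⟨_, h2⟩
          exact h1 h2
        · rintro ⟨_, h2⟩
          exact h1 (h2.trans hadj.symm.reachable)
  rw [SimpleGraph.isTree_iff_connected_and_card]
  constructor
  · rw [SimpleGraph.connected_iff_exists_forall_reachable]
    refine ⟨⟨r, hrC⟩, ?_⟩
    rintro ⟨v, hv⟩
    exact (hreach v hv).2
  · rw [edge_card_coe, hedge, Set.ncard_coe_finset, h.card_eq]
    change C.card = Nat.card (C : Set V)
    simp

/-- The number of subtrees of given order, in terms of pairs. -/
theorem card_subtrees (G : SimpleGraph V) (E : Finset (Sym2 V))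
    (hE : ∀ e, e ∈ E ↔ e ∈ G.edgeSet) (k : ℕ) :
    Nat.card {H : G.Subgraph // H.coe.IsTree ∧ Nat.card H.verts = k} =
      ((TP E).filter (fun p => p.1.card = k)).card := by
  classical
  rw [← Nat.card_eq_finsetCard]
  let f : {H : G.Subgraph // H.coe.IsTree ∧ Nat.card H.verts = k} →
      ((TP E).filter (fun p => p.1.card = k)) := fun H =>
    ⟨((Set.toFinite H.1.verts).toFinset, (Set.toFinite H.1.edgeSet).toFinset), by
      rw [mem_filter, mem_TP]
      refine ⟨⟨?_, ?_⟩, ?_⟩
      · intro e he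
        rw [Set.Finite.mem_toFinset] at he
        rw [hE]
        exact H.1.edgeSet_subset he
      · exact grow_of_tree G H.1 H.2.1 _ _ (Set.Finite.coe_toFinset _) (Set.Finite.coe_toFinset _)
      · rw [← Set.ncard_eq_toFinset_card]
        exact H.2.2⟩
  refine Nat.card_congr (Equiv.ofBijective f ⟨?_, ?_⟩)
  · rintro ⟨H, hH⟩ ⟨K, hK⟩ hHK
    simp only [f, Subtype.mk.injEq, Prod.mk.injEq, Set.Finite.toFinset_inj] at hHK
    obtain ⟨h1, h2⟩ := hHK
    apply Subtype.ext
    apply SimpleGraph.Subgraph.ext h1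
    funext a b
    apply propext
    rw [← SimpleGraph.Subgraph.mem_edgeSet, ← SimpleGraph.Subgraph.mem_edgeSet, h2]
  · rintro ⟨⟨C, F⟩, hp⟩
    rw [mem_filter, mem_TP] at hp
    obtain ⟨⟨hF, r, hg⟩, hk⟩ := hp
    obtain ⟨H, hH, hv, he⟩ := tree_of_grow G hg (fun e he => (hE e).mp (hF he))
    refine ⟨⟨H, hH, ?_⟩, ?_⟩
    · rw [hv]
      simpa using hk
    · apply Subtype.ext
      simp only [f, Prod.mk.injEq]
      constructor
      · ext z; rw [Set.Finite.mem_toFinset, hv, mem_coe]
      · ext z; rw [Set.Finite.mem_toFinset, he, mem_coe]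

/-- Every tree has between `1` and `|V|` vertices. -/
theorem card_mem_Icc {E : Finset (Sym2 V)} {p : Finset V × Finset (Sym2 V)} (hp : p ∈ TP E) :
    p.1.card ∈ Finset.Icc 1 (Fintype.card V) := by
  rw [mem_TP] at hp
  obtain ⟨_, r, hg⟩ := hp
  rw [Finset.mem_Icc]
  exact ⟨card_pos.mpr ⟨r, hg.root_mem⟩, card_le_univ _⟩

theorem sum_count (E : Finset (Sym2 V)) :
    ∑ k ∈ Finset.Icc 1 (Fintype.card V), ((TP E).filter (fun p => p.1.card = k)).card =
      (TP E).card := by
  classical
  rw [← Finset.card_eq_sum_card_fiberwise (f := fun p : Finset V × Finset (Sym2 V) => p.1.card)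
    (s := TP E) (t := Finset.Icc 1 (Fintype.card V))]
  intro p hp
  exact card_mem_Icc hp

theorem sum_order (E : Finset (Sym2 V)) :
    ∑ k ∈ Finset.Icc 1 (Fintype.card V), k * ((TP E).filter (fun p => p.1.card = k)).card =
      ∑ p ∈ TP E, p.1.card := by
  classical
  rw [← Finset.sum_fiberwise_of_maps_to (g := fun p : Finset V × Finset (Sym2 V) => p.1.card)
    (s := TP E) (t := Finset.Icc 1 (Fintype.card V)) (fun p hp => card_mem_Icc hp)]
  apply Finset.sum_congr rfl
  intro k _
  rw [Finset.sum_const_nat (m := k), mul_comm]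
  intro p hp
  exact (mem_filter.mp hp).2

end Trees

end Pool.Agent.LibMST
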