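import Pool.Agent.LibMST.Final

set_option autoImplicit false

namespace Pool.Agent.LibMST

open Finset

theorem isRep_good (a b : ℕ) (h : isRep a b = true) :
    ∃ (ha : a < 15) (hb : b < 15), Good ⟨a, ha⟩ ⟨b, hb⟩ := by
  unfold isRep at h
  simp only [Bool.or_eq_true, Bool.and_eq_true] at h
  rcases h with ⟨h1, h2⟩ | ⟨h1, h2⟩
  · have e1 := Nat.eq_of_beq_eq_true h1
    subst e1
    rcases h2 with h2 | h2 | h2 | h2 | h2
    · have e2 := Nat.eq_of_beq_eq_true h2
      subst e2
      exact ⟨by norm_num, by norm_num, good0_2⟩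
    · have e2 := Nat.eq_of_beq_eq_true h2
      subst e2
      exact ⟨by norm_num, by norm_num, good0_5⟩
    · have e2 := Nat.eq_of_beq_eq_true h2
      subst e2
      exact ⟨by norm_num, by norm_num, good0_6⟩
    · have e2 := Nat.eq_of_beq_eq_true h2
      subst e2
      exact ⟨by norm_num, by norm_num, good0_7⟩
    · have e2 := Nat.eq_of_beq_eq_true h2
      subst e2
      exact ⟨by norm_num, by norm_num, good0_11⟩
  · have e1 := Nat.eq_of_beq_eq_true h1
    have e2 := Nat.eq_of_beq_eq_true h2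
    subst e1
    subst e2
    exact ⟨by norm_num, by norm_num, good2_7⟩

theorem good_of_perm (u v : Fin 15) (a b c d : ℕ) (h : chkPerm u.val v.val a b c d = true) :
    Good u v := by
  unfold chkPerm at h
  rw [Bool.and_eq_true, Bool.and_eq_true, Bool.and_eq_true, allB_iff, allB_iff] at h
  obtain ⟨h1, h2, h3, h4⟩ := h
  have hlt : ∀ x : Fin 15, pf c x.val < 15 ∧ pf d x.val < 15 ∧
      pf d (pf c x.val) = x.val ∧ pf c (pf d x.val) = x.val := by
    intro x
    have := h1 x.val x.isLt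
    simp only [Bool.and_eq_true, Nat.blt_eq] at this
    exact ⟨this.1.1, this.1.2, Nat.eq_of_beq_eq_true this.2.1, Nat.eq_of_beq_eq_true this.2.2⟩
  let σ : Equiv.Perm (Fin 15) :=
    { toFun := fun x => ⟨pf c x.val, (hlt x).1⟩
      invFun := fun x => ⟨pf d x.val, (hlt x).2.1⟩
      left_inv := fun x => Fin.ext (hlt x).2.2.1
      right_inv := fun x => Fin.ext (hlt x).2.2.2 }
  have hadj : ∀ x y : Fin 15, adjP x y → adjP (σ x) (σ y) ∧ adjP (σ.symm x) (σ.symm y) := by
    intro x y hxy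
    have h5 := h2 x.val x.isLt
    rw [allB_iff] at h5
    have h6 := h5 y.val y.isLt
    rw [Bool.or_eq_true] at h6
    unfold adjP at hxy
    rcases h6 with h6 | h6
    · rw [hxy] at h6
      exact absurd h6 (by decide)
    · rw [Bool.and_eq_true] at h6
      exact h6
  have hσ : ∀ e ∈ EE, Sym2.map σ e ∈ EE := by
    intro e he
    induction e with
    | _ x y =>
      rw [mk_mem_EE] at he
      rw [Sym2.map_mk, mk_mem_EE]
      exact (hadj x y he).1
  have hσ' : ∀ e ∈ EE, Sym2.map σ.symm e ∈ EE := by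
    intro e he
    induction e with
    | _ x y =>
      rw [mk_mem_EE] at he
      rw [Sym2.map_mk, mk_mem_EE]
      exact (hadj x y he).2
  obtain ⟨ha, hb, hgood⟩ := isRep_good a b h3
  have hmap : Sym2.map σ s((⟨a, ha⟩ : Fin 15), ⟨b, hb⟩) = s(u, v) := by
    rw [Sym2.map_mk, Sym2.eq_iff]
    rw [Bool.or_eq_true, Bool.and_eq_true, Bool.and_eq_true] at h4
    rcases h4 with ⟨h5, h6⟩ | ⟨h5, h6⟩
    · left
      exact ⟨Fin.ext (Nat.eq_of_beq_eq_true h5), Fin.ext (Nat.eq_of_beq_eq_true h6)⟩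
    · right
      exact ⟨Fin.ext (Nat.eq_of_beq_eq_true h5), Fin.ext (Nat.eq_of_beq_eq_true h6)⟩
  have hs1 := sum_TE_map EE s((⟨a, ha⟩ : Fin 15), ⟨b, hb⟩) σ hσ hσ' (fun k => k)
  have hs2 := sum_TE_map EE s((⟨a, ha⟩ : Fin 15), ⟨b, hb⟩) σ hσ hσ' (fun _ => 1)
  rw [hmap] at hs1 hs2
  rw [← Finset.card_eq_sum_ones, ← Finset.card_eq_sum_ones] at hs2
  unfold Good at hgood ⊢
  rw [hs1, hs2]
  exact hgood

theorem good_lt (u v : Fin 15) (huv : u < v) (hadj : ¬ adjP u v) : Good u v := by
  have h := perms_check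
  rw [allB_iff] at h
  have h1 := h u.val u.isLt
  rw [allB_iff] at h1
  have h2 := h1 v.val v.isLt
  rw [Bool.or_eq_true, Bool.or_eq_true] at h2
  rcases h2 with h2 | h2 | h2
  · rw [Nat.ble_eq] at h2
    exact absurd huv (not_lt.mpr h2)
  · exact absurd h2 hadj
  · rw [List.any_eq_true] at h2
    obtain ⟨t, _, ht⟩ := h2
    rw [Bool.and_eq_true] at ht
    exact good_of_perm u v _ _ _ _ ht.2

theorem good_all (u v : Fin 15) (huv : u ≠ v) (hadj : ¬ adjP u v) : Good u v := by
  rcases lt_or_gt_of_ne huv with h | h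
  · exact good_lt u v h hadj
  · have h2 := good_lt v u h (fun h3 => hadj (adjP_symm h3))
    unfold Good at h2 ⊢
    rw [Sym2.eq_swap] at h2
    exact h2

theorem GG_connected : GG.Connected := by
  have hadj : ∀ k : Fin 14, GG.Adj k.castSucc k.succ := by decide +kernel
  have hreach : ∀ n : ℕ, ∀ h : n < 15, GG.Reachable 0 ⟨n, h⟩ := by
    intro n
    induction n with
    | zero => intro h; exact SimpleGraph.Reachable.refl _
    | succ n ih =>
      intro h
      have h1 := ih (by omega)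
      have h2 := hadj ⟨n, by omega⟩
      exact h1.trans h2.reachable
  rw [SimpleGraph.connected_iff_exists_forall_reachable]
  exact ⟨0, fun w => hreach w.val w.isLt⟩

theorem GG_ne_top : GG ≠ ⊤ := by
  intro h
  have h1 : GG.Adj 0 2 := by
    rw [h]
    decide
  exact absurd h1 (by decide +kernel)

end Pool.Agent.LibMST
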