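import Mathlib

set_option autoImplicit false

namespace Pool.Agent.LibMST

/-- Base-eight digit number `w` of `c`. -/
def dig (c w : ℕ) : ℕ := Nat.land (Nat.shiftRight c (Nat.mul 3 w)) 7

/-- Adjacency matrix of the graph, sixteen bits per row. -/
def adjMask : ℕ := 0x38015801680174000b8005c006c0074003a0005c002e0036003a001d7002

/-- Adjacency test. -/
def adjb (x y : ℕ) : Bool :=
  Nat.beq (Nat.land (Nat.shiftRight adjMask (Nat.add (Nat.mul 16 x) y)) 1) 1

/-- `p` holds for all numbers below the bound. -/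
def allB (p : ℕ → Bool) (n : ℕ) : Bool := Nat.rec true (fun k ih => and (p k) ih) n

/-- Slot `i` of a table. -/
def slot (T i : ℕ) : ℕ :=
  Nat.land (Nat.shiftRight T (Nat.mul 128 i)) 0xffffffffffffffffffffffffffffffff

def fCode (e : ℕ) : ℕ := Nat.land e 0x1fffffffffff
def fPiv (e : ℕ) : ℕ := Nat.land (Nat.shiftRight e 48) 15
def fDel (e : ℕ) : ℕ := Nat.land (Nat.shiftRight e 52) 4095
def fCon (e : ℕ) : ℕ := Nat.land (Nat.shiftRight e 64) 4095
def fN (e : ℕ) : ℕ := Nat.land (Nat.shiftRight e 76) 0xffffff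
def fS (e : ℕ) : ℕ := Nat.land (Nat.shiftRight e 100) 0xfffffff

/-- The state `d` is obtained from the state `s` by discarding some unreachable vertices. -/
def cleanB (s d : ℕ → ℕ) : Bool :=
  allB (fun y => or (Nat.beq (d y) (s y))
    (and (and (Nat.beq (s y) 1) (Nat.beq (d y) 0))
      (allB (fun z => or (not (adjb y z)) (Nat.beq (d z) 0)) 15))) 15

/-- State after all root edges at `w` are deleted. -/
def sDel (s : ℕ → ℕ) (w y : ℕ) : ℕ := cond (Nat.beq y w) 1 (s y)

/-- State after `w` is contracted into the root. -/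
def sCon (s : ℕ → ℕ) (w y : ℕ) : ℕ :=
  cond (Nat.beq y w) 0 (cond (and (adjb w y) (Nat.ble 1 (s y))) (Nat.add (s y) 1) (s y))

/-- The check of one entry. -/
def checkE (T i : ℕ) (e : ℕ) : Bool :=
  and (Nat.blt (fPiv e) 15) <|
  and (Nat.ble 2 (dig (fCode e) (fPiv e))) <|
  and (Nat.blt (fDel e) i) <|
  and (Nat.blt (fCon e) i) <|
  and (cleanB (sDel (dig (fCode e)) (fPiv e)) (dig (fCode (slot T (fDel e))))) <|
  and (cleanB (sCon (dig (fCode e)) (fPiv e)) (dig (fCode (slot T (fCon e))))) <|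
  and (Nat.beq (fN e) (Nat.add (fN (slot T (fDel e)))
    (Nat.mul (Nat.sub (dig (fCode e) (fPiv e)) 1) (fN (slot T (fCon e)))))) <|
  Nat.beq (fS e) (Nat.add (fS (slot T (fDel e)))
    (Nat.mul (Nat.sub (dig (fCode e) (fPiv e)) 1)
      (Nat.add (fS (slot T (fCon e))) (fN (slot T (fCon e))))))

/-- The check of a whole table. -/
def checkT (T n : ℕ) : Bool :=
  and (Nat.beq (fCode (slot T 0)) 0) <|
  and (Nat.beq (fN (slot T 0)) 1) <|
  and (Nat.beq (fS (slot T 0)) 0) <|
  allB (fun i => checkE T (Nat.succ i) (slot T (Nat.succ i))) n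

end Pool.Agent.LibMST
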