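import Pool.Agent.LibMST.Graph
import Pool.Agent.LibMST.TabR
import Pool.Agent.LibMST.TabP0_2
import Pool.Agent.LibMST.TabP0_5
import Pool.Agent.LibMST.TabP0_6
import Pool.Agent.LibMST.TabP0_7
import Pool.Agent.LibMST.TabP0_11
import Pool.Agent.LibMST.TabP2_7

set_option autoImplicit false

namespace Pool.Agent.LibMST

open Finset

/-- Positions of the start states of the fifteen roots in the table. -/
def rootIdx : ℕ → ℕ := fun r => ([1015, 91, 68, 56, 52, 51, 50, 27, 19, 15, 14, 13, 4, 1, 0] : List ℕ).getD r 0

theorem root_check : ∀ r : Fin 15, rootIdx r.val ≤ 1015 ∧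
    cleanB (sRootN r.val) (dig (fCode (slot tabR (rootIdx r.val)))) = true := by
  decide +kernel

theorem total_count : (TP EE).card = 7831428 := by
  rw [TP_card_eq]
  have h : ∀ r : Fin 15, cN r ∅ (geE EE r) = fN (slot tabR (rootIdx r.val)) := fun r =>
    (val_root tabR 1015 (rootIdx r.val) checkR (root_check r).1 r (root_check r).2).1
  simp only [h]
  decide +kernel

theorem total_order : ∑ p ∈ TP EE, p.1.card = 106725798 := by
  rw [TP_sum_eq]
  have h : ∀ r : Fin 15, cS r ∅ (geE EE r) + cN r ∅ (geE EE r) =
      fS (slot tabR (rootIdx r.val)) + fN (slot tabR (rootIdx r.val)) := fun r => by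
    have h1 := val_root tabR 1015 (rootIdx r.val) checkR (root_check r).1 r (root_check r).2
    rw [h1.1, h1.2]
  simp only [h]
  decide +kernel

/-- Adding the edge between `u` and `v` lowers the mean, in terms of counts. -/
def Good (u v : Fin 15) : Prop :=
  (∑ p ∈ TE EE s(u, v), p.1.card) * (TP EE).card <
    (∑ p ∈ TP EE, p.1.card) * (TE EE s(u, v)).card

theorem good0_2 : Good 0 2 := by
  have h := val_pair tabP0_2 873 873 checkP0_2 le_rfl 0 2 (by decide +kernel) (by decide)
    (by decide +kernel)
  have h1 : fN (slot tabP0_2 873) = 9005088 := by decide +kernel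
  have h2 : fS (slot tabP0_2 873) = 104544134 := by decide +kernel
  rw [h1, h2] at h
  unfold Good
  rw [h.1, h.2, total_count, total_order]
  norm_num

theorem good0_5 : Good 0 5 := by
  have h := val_pair tabP0_5 416 416 checkP0_5 le_rfl 0 5 (by decide +kernel) (by decide)
    (by decide +kernel)
  have h1 : fN (slot tabP0_5 416) = 10001736 := by decide +kernel
  have h2 : fS (slot tabP0_5 416) = 114902648 := by decide +kernel
  rw [h1, h2] at h
  unfold Good
  rw [h.1, h.2, total_count, total_order]
  norm_num

theorem good0_6 : Good 0 6 := by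
  have h := val_pair tabP0_6 482 482 checkP0_6 le_rfl 0 6 (by decide +kernel) (by decide)
    (by decide +kernel)
  have h1 : fN (slot tabP0_6 482) = 11587640 := by decide +kernel
  have h2 : fS (slot tabP0_6 482) = 132621130 := by decide +kernel
  rw [h1, h2] at h
  unfold Good
  rw [h.1, h.2, total_count, total_order]
  norm_num

theorem good0_7 : Good 0 7 := by
  have h := val_pair tabP0_7 1647 1647 checkP0_7 le_rfl 0 7 (by decide +kernel) (by decide)
    (by decide +kernel)
  have h1 : fN (slot tabP0_7 1647) = 11679610 := by decide +kernel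
  have h2 : fS (slot tabP0_7 1647) = 134402782 := by decide +kernel
  rw [h1, h2] at h
  unfold Good
  rw [h.1, h.2, total_count, total_order]
  norm_num

theorem good0_11 : Good 0 11 := by
  have h := val_pair tabP0_11 443 443 checkP0_11 le_rfl 0 11 (by decide +kernel) (by decide)
    (by decide +kernel)
  have h1 : fN (slot tabP0_11 443) = 4914432 := by decide +kernel
  have h2 : fS (slot tabP0_11 443) = 56820816 := by decide +kernel
  rw [h1, h2] at h
  unfold Good
  rw [h.1, h.2, total_count, total_order]
  norm_num

theorem good2_7 : Good 2 7 := by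
  have h := val_pair tabP2_7 2017 2017 checkP2_7 le_rfl 2 7 (by decide +kernel) (by decide)
    (by decide +kernel)
  have h1 : fN (slot tabP2_7 2017) = 11137275 := by decide +kernel
  have h2 : fS (slot tabP2_7 2017) = 129170984 := by decide +kernel
  rw [h1, h2] at h
  unfold Good
  rw [h.1, h.2, total_count, total_order]
  norm_num

/-- Number `x` of the map coded by `c`. -/
def pf (c x : ℕ) : ℕ := Nat.land (Nat.shiftRight c (Nat.mul 4 x)) 15

/-- For each pair of nonadjacent vertices `u < v` a representative pair `a`, `b` and an
automorphism (with its inverse) moving `{a, b}` to `{u, v}`. -/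
def perms : List (ℕ × ℕ × ℕ × ℕ × ℕ × ℕ) :=
  [(0, 2, 0, 2, 1070935975390360080, 1070935975390360080),
   (0, 3, 0, 2, 1070935975390356240, 1070935975390356240),
   (0, 4, 0, 2, 1070935975390290960, 1070935975390233360),
   (0, 5, 0, 5, 1070935975390360080, 1070935975390360080),
   (0, 6, 0, 6, 1070935975390360080, 1070935975390360080),
   (0, 7, 0, 7, 1070935975390360080, 1070935975390360080),
   (0, 8, 0, 7, 1070935971363828240, 1070935971363828240),
   (0, 9, 0, 7, 1070935902912786960, 1070935842514809360),
   (0, 10, 0, 5, 686628807189126330, 302322738497423205),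
   (0, 11, 0, 11, 1070935975390360080, 1070935975390360080),
   (1, 5, 0, 11, 302399337881590785, 302399337881590785),
   (1, 6, 0, 5, 686706505815437910, 686706505815437910),
   (1, 7, 0, 7, 302399337881590785, 302399337881590785),
   (1, 8, 0, 7, 302399333855058945, 302399333855058945),
   (1, 9, 0, 7, 302399265404017665, 302399205006040065),
   (1, 10, 0, 6, 302399337881590785, 302399337881590785),
   (1, 11, 0, 5, 302399337881590785, 302399337881590785),
   (1, 12, 0, 2, 302399337881590785, 302399337881590785),
   (1, 13, 0, 2, 302399337881586945, 298177213230930945),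
   (1, 14, 0, 2, 302399337881521665, 163069224409816065),
   (2, 6, 0, 2, 686706505815437910, 686706505815437910),
   (2, 7, 2, 7, 1070935975390360080, 1070935975390360080),
   (2, 8, 2, 7, 1070935971363828240, 1070935971363828240),
   (2, 9, 2, 7, 1070935902912786960, 1070935842514809360),
   (2, 10, 0, 7, 686628807189126330, 302322738497423205),
   (2, 11, 0, 7, 1070732199309445035, 1070732199309445035),
   (2, 12, 2, 7, 686706505815437910, 686706505815437910),
   (2, 13, 2, 7, 686706501788906070, 682484381164778070),
   (2, 14, 2, 7, 686706433337864790, 547376392343663190),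
   (3, 6, 0, 2, 686706505815434070, 686706505815434070),
   (3, 7, 2, 7, 1070935975390356240, 1070935975390356240),
   (3, 8, 2, 7, 1070935971363824400, 1070935971363824400),
   (3, 9, 2, 7, 1070935902912783120, 1070935842514805520),
   (3, 10, 0, 7, 686628803162594490, 302322738497419365),
   (3, 11, 0, 7, 1070732195282913195, 1070732199309441195),
   (3, 12, 2, 7, 686706505815434070, 686706505815434070),
   (3, 13, 2, 7, 686706501788902230, 682484381164774230),
   (3, 14, 2, 7, 686706433337860950, 547376392343659350),
   (4, 6, 0, 2, 686706505815368790, 686706505815311190),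
   (4, 7, 2, 7, 1070935975390290960, 1070935975390233360),
   (4, 8, 2, 7, 1070935971363759120, 1070935971363701520),
   (4, 9, 2, 7, 1070935902912717840, 1070935842514682640),
   (4, 10, 0, 7, 686628734711553210, 302322738497296485),
   (4, 11, 0, 7, 1070732126831871915, 1070732199309318315),
   (4, 12, 2, 7, 686706505815368790, 686706505815311190),
   (4, 13, 2, 7, 686706501788836950, 682484381164651350),
   (4, 14, 2, 7, 686706433337795670, 547376392343536470),
   (5, 7, 0, 2, 302322738497423205, 686628807189126330),
   (5, 8, 0, 2, 302322738497419365, 686628803162594490),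
   (5, 9, 0, 2, 302322738497354085, 686628674313575610),
   (5, 10, 0, 5, 302322738497423205, 686628807189126330),
   (5, 11, 0, 6, 302322738497423205, 686628807189126330),
   (5, 12, 0, 7, 302322738497423205, 686628807189126330),
   (5, 13, 0, 7, 302322734470891365, 682406682538466490),
   (5, 14, 0, 7, 302322666019850085, 547298693717351610),
   (6, 10, 0, 11, 686706505815437910, 686706505815437910),
   (6, 11, 0, 5, 1070732199309445035, 1070732199309445035),
   (6, 12, 0, 7, 686706505815437910, 686706505815437910),
   (6, 13, 0, 7, 686706501788906070, 682484381164778070),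
   (6, 14, 0, 7, 686706433337864790, 547376392343663190),
   (7, 11, 0, 2, 1070732199309445035, 1070732199309445035),
   (7, 12, 2, 7, 302399337881590785, 302399337881590785),
   (7, 13, 2, 7, 302399337881586945, 298177213230930945),
   (7, 14, 2, 7, 302399337881521665, 163069224409816065),
   (8, 11, 0, 2, 1070732199309441195, 1070732195282913195),
   (8, 12, 2, 7, 302399333855058945, 302399333855058945),
   (8, 13, 2, 7, 302399333855055105, 298177209204399105),
   (8, 14, 2, 7, 302399333854989825, 163069220383284225),
   (9, 11, 0, 2, 1070732199309375915, 1070732066433894315),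
   (9, 12, 2, 7, 302399265404017665, 302399205006040065),
   (9, 13, 2, 7, 302399265404013825, 298177080355380225),
   (9, 14, 2, 7, 302399265403948545, 163069091534265345),
   (10, 12, 0, 2, 686628807189126330, 302322738497423205),
   (10, 13, 0, 2, 686628807189122490, 298100613846763365),
   (10, 14, 0, 2, 686628807189057210, 162992625025648485)]

def isRep (a b : ℕ) : Bool :=
  or (and (Nat.beq a 0) (or (Nat.beq b 2) (or (Nat.beq b 5) (or (Nat.beq b 6) (or (Nat.beq b 7) (Nat.beq b 11))))))
    (and (Nat.beq a 2) (Nat.beq b 7))

def chkPerm (u v a b c d : ℕ) : Bool :=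
  and (allB (fun x => and (and (Nat.blt (pf c x) 15) (Nat.blt (pf d x) 15))
    (and (Nat.beq (pf d (pf c x)) x) (Nat.beq (pf c (pf d x)) x))) 15) <|
  and (allB (fun x => allB (fun y => or (not (adjb x y))
    (and (adjb (pf c x) (pf c y)) (adjb (pf d x) (pf d y)))) 15) 15) <|
  and (isRep a b) <|
  or (and (Nat.beq (pf c a) u) (Nat.beq (pf c b) v)) (and (Nat.beq (pf c a) v) (Nat.beq (pf c b) u))

theorem perms_check : allB (fun u => allB (fun v => or (Nat.ble v u) (or (adjb u v)
    (perms.any (fun t => and (and (Nat.beq t.1 u) (Nat.beq t.2.1 v))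
      (chkPerm u v t.2.2.1 t.2.2.2.1 t.2.2.2.2.1 t.2.2.2.2.2))))) 15) 15 = true := by
  decide +kernel

end Pool.Agent.LibMST
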