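import Pool.Agent.LibMST.Trees

set_option autoImplicit false
set_option linter.unusedSectionVars false

namespace Pool.Agent.LibMST

open Finset

section Root

variable {V : Type*} [Fintype V] [LinearOrder V]

/-- Edges of `E` with both ends at least `r`. -/
def geE (E : Finset (Sym2 V)) (r : V) : Finset (Sym2 V) := E.filter (fun e => ∀ v ∈ e, r ≤ v)

theorem exists_unique_min (C : Finset V) (hC : C.Nonempty) :
    ∃! r, r ∈ C ∧ ∀ v ∈ C, r ≤ v := by
  refine ⟨C.min' hC, ⟨C.min'_mem hC, fun v hv => C.min'_le v hv⟩, ?_⟩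
  rintro r ⟨hr, hmin⟩
  exact le_antisymm (hmin _ (C.min'_mem hC)) (C.min'_le r hr)

theorem sum_by_root (E : Finset (Sym2 V)) (f : ℕ → ℕ) :
    ∑ p ∈ TP E, f p.1.card =
      ∑ r : V, ∑ p ∈ (TP E).filter (fun p => r ∈ p.1 ∧ ∀ v ∈ p.1, r ≤ v), f p.1.card := by
  classical
  simp_rw [Finset.sum_filter]
  rw [Finset.sum_comm]
  apply Finset.sum_congr rfl
  intro p hp
  rw [mem_TP] at hp
  obtain ⟨_, r0, hg⟩ := hp
  obtain ⟨r, hr, huniq⟩ := exists_unique_min p.1 ⟨r0, hg.root_mem⟩
  rw [Finset.sum_eq_single r]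
  · rw [if_pos hr]
  · intro b _ hb
    rw [if_neg]
    intro h
    exact hb (huniq b h)
  · intro h
    exact absurd (Finset.mem_univ r) h

open Classical in
theorem sum_root (E : Finset (Sym2 V)) (r : V) (f : ℕ → ℕ) :
    ∑ p ∈ (TP E).filter (fun p => r ∈ p.1 ∧ ∀ v ∈ p.1, r ≤ v), f p.1.card =
      ∑ F ∈ (geE E r).powerset, if ∃ C, Grow r C (∅ ∪ F) then f (F.card + 1) else 0 := by
  rw [← Finset.sum_filter]
  refine Finset.sum_nbij (fun p => p.2) ?_ ?_ ?_ ?_
  · intro p hp
    rw [mem_filter, mem_TP] at hp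
    obtain ⟨⟨hE, r0, hg⟩, hr, hmin⟩ := hp
    rw [mem_filter, mem_powerset]
    refine ⟨?_, p.1, ?_⟩
    · intro e he
      unfold geE
      rw [mem_filter]
      exact ⟨hE he, fun v hv => hmin v (hg.edge_sub e he v hv)⟩
    · rw [empty_union]
      exact hg.reroot r hr
  · intro p hp q hq hpq
    rw [mem_coe, mem_filter, mem_TP] at hp hq
    obtain ⟨⟨hE, r0, hg⟩, hr, hmin⟩ := hp
    obtain ⟨⟨hE', r0', hg'⟩, hr', hmin'⟩ := hq
    have h1 := hg.reroot r hr
    have h2 := hg'.reroot r hr'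
    simp only at hpq
    rw [← hpq] at h2
    exact Prod.ext (h1.verts_unique h2) hpq
  · intro F hF
    rw [mem_coe, mem_filter, mem_powerset] at hF
    obtain ⟨hFE, C, hC⟩ := hF
    rw [empty_union] at hC
    refine ⟨(C, F), ?_, rfl⟩
    rw [mem_coe, mem_filter, mem_TP]
    refine ⟨⟨fun e he => ?_, r, hC⟩, hC.root_mem, ?_⟩
    · exact (mem_filter.mp (hFE he)).1
    · intro v hv
      rcases hC.cover v hv with rfl | ⟨e, he, hve⟩
      · exact le_rfl
      · exact (mem_filter.mp (hFE he)).2 v hve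
  · intro p hp
    rw [mem_filter, mem_TP] at hp
    obtain ⟨⟨hE, r0, hg⟩, _⟩ := hp
    rw [← hg.card_eq]

theorem TP_card_eq (E : Finset (Sym2 V)) : (TP E).card = ∑ r : V, cN r ∅ (geE E r) := by
  classical
  rw [Finset.card_eq_sum_ones]
  have h2 := sum_by_root E (fun _ => 1)
  rw [h2]
  apply Finset.sum_congr rfl
  intro r _
  rw [sum_root E r (fun _ => 1)]
  unfold cN
  apply Finset.sum_congr rfl
  intro F _
  split_ifs <;> rfl

theorem TP_sum_eq (E : Finset (Sym2 V)) :
    ∑ p ∈ TP E, p.1.card = ∑ r : V, (cS r ∅ (geE E r) + cN r ∅ (geE E r)) := by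
  classical
  have h2 := sum_by_root E (fun k => k)
  rw [h2]
  apply Finset.sum_congr rfl
  intro r _
  rw [sum_root E r (fun k => k)]
  unfold cS cN
  rw [← Finset.sum_add_distrib]
  apply Finset.sum_congr rfl
  intro F _
  split_ifs <;> simp

end Root

section Edge

variable {V : Type*} [Fintype V] [DecidableEq V]

/-- The trees with edges in `insert e E` that contain the edge `e`. -/
noncomputable def TE (E : Finset (Sym2 V)) (e : Sym2 V) : Finset (Finset V × Finset (Sym2 V)) :=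
  (TP (insert e E)).filter (fun p => e ∈ p.2)

theorem sum_insert_edge (E : Finset (Sym2 V)) (e : Sym2 V) (he : e ∉ E) (f : ℕ → ℕ) :
    ∑ p ∈ TP (insert e E), f p.1.card = ∑ p ∈ TP E, f p.1.card + ∑ p ∈ TE E e, f p.1.card := by
  classical
  rw [← Finset.sum_filter_not_add_sum_filter (TP (insert e E)) (fun p => e ∈ p.2)]
  congr 1
  apply Finset.sum_congr _ (fun _ _ => rfl)
  ext p
  rw [mem_filter, mem_TP, mem_TP]
  constructor
  · rintro ⟨⟨h1, h2⟩, h3⟩
    exact ⟨(subset_insert_iff_of_notMem h3).mp h1, h2⟩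
  · rintro ⟨h1, h2⟩
    exact ⟨⟨h1.trans (subset_insert _ _), h2⟩, fun h => he (h1 h)⟩

open Classical in
theorem sum_TE (E : Finset (Sym2 V)) (u v : V) (he : s(u, v) ∉ E) (f : ℕ → ℕ) :
    ∑ p ∈ TE E s(u, v), f p.1.card =
      ∑ F ∈ E.powerset, if ∃ C, Grow u C ({s(u, v)} ∪ F) then f (F.card + 2) else 0 := by
  rw [← Finset.sum_filter]
  refine Finset.sum_nbij (fun p => p.2.erase s(u, v)) ?_ ?_ ?_ ?_
  · intro p hp
    unfold TE at hp
    rw [mem_filter, mem_TP] at hp
    obtain ⟨⟨hE, r0, hg⟩, hmem⟩ := hp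
    rw [mem_filter, mem_powerset]
    refine ⟨?_, p.1, ?_⟩
    · intro e he'
      rw [mem_erase] at he'
      have := hE he'.2
      rw [mem_insert] at this
      exact this.resolve_left he'.1
    · rw [← insert_eq, insert_erase hmem]
      exact hg.reroot u (hg.edge_sub _ hmem u (Sym2.mem_mk_left u v))
  · intro p hp q hq hpq
    unfold TE at hp hq
    rw [mem_coe, mem_filter, mem_TP] at hp hq
    obtain ⟨⟨hE, r0, hg⟩, hmem⟩ := hp
    obtain ⟨⟨hE', r0', hg'⟩, hmem'⟩ := hq
    have h0 : p.2 = q.2 := by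
      rw [← insert_erase hmem, ← insert_erase hmem']
      simp only at hpq
      rw [hpq]
    have h1 := hg.reroot u (hg.edge_sub _ hmem u (Sym2.mem_mk_left u v))
    have h2 := hg'.reroot u (hg'.edge_sub _ hmem' u (Sym2.mem_mk_left u v))
    rw [← h0] at h2
    exact Prod.ext (h1.verts_unique h2) h0
  · intro F hF
    rw [mem_coe, mem_filter, mem_powerset] at hF
    obtain ⟨hFE, C, hC⟩ := hF
    have hnF : s(u, v) ∉ F := fun h => he (hFE h)
    refine ⟨(C, {s(u, v)} ∪ F), ?_, ?_⟩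
    · unfold TE
      rw [mem_coe, mem_filter, mem_TP]
      refine ⟨⟨?_, u, hC⟩, ?_⟩
      · rw [← insert_eq]
        exact insert_subset_insert _ hFE
      · simp
    · simp only
      rw [← insert_eq, erase_insert hnF]
  · intro p hp
    unfold TE at hp
    rw [mem_filter, mem_TP] at hp
    obtain ⟨⟨hE, r0, hg⟩, hmem⟩ := hp
    rw [← hg.card_eq, ← card_erase_add_one hmem]

theorem TE_card_eq (E : Finset (Sym2 V)) (u v : V) (he : s(u, v) ∉ E) :
    (TE E s(u, v)).card = cN u {s(u, v)} E := by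
  classical
  rw [Finset.card_eq_sum_ones, sum_TE E u v he (fun _ => 1)]
  unfold cN
  apply Finset.sum_congr rfl
  intro F _
  split_ifs <;> rfl

theorem TE_sum_eq (E : Finset (Sym2 V)) (u v : V) (he : s(u, v) ∉ E) :
    ∑ p ∈ TE E s(u, v), p.1.card = cS u {s(u, v)} E + 2 * cN u {s(u, v)} E := by
  classical
  rw [sum_TE E u v he (fun k => k)]
  unfold cS cN
  rw [Finset.mul_sum, ← Finset.sum_add_distrib]
  apply Finset.sum_congr rfl
  intro F _
  split_ifs <;> simp

theorem Grow.image {r : V} {C : Finset V} {B : Finset (Sym2 V)} (h : Grow r C B)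
    (σ : Equiv.Perm V) : Grow (σ r) (C.image σ) (B.image (Sym2.map σ)) := by
  induction h with
  | base => simpa using Grow.base (r := σ r)
  | @step C B x w h hx hw ih =>
    have h1 := Grow.step ih (x := σ x) (w := σ w) (mem_image_of_mem _ hx) (by
      rw [mem_image]
      rintro ⟨z, hz, hzw⟩
      rw [σ.injective hzw] at hz
      exact hw hz)
    rw [image_insert, image_insert, Sym2.map_mk]
    exact h1

theorem TE_map_mem (E : Finset (Sym2 V)) (e : Sym2 V) (σ : Equiv.Perm V)
    (hσ : ∀ e ∈ E, Sym2.map σ e ∈ E) (p : Finset V × Finset (Sym2 V)) (hp : p ∈ TE E e) :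
    (p.1.image σ, p.2.image (Sym2.map σ)) ∈ TE E (Sym2.map σ e) := by
  unfold TE at hp ⊢
  rw [mem_filter, mem_TP] at hp ⊢
  obtain ⟨⟨hE, r, hg⟩, hmem⟩ := hp
  refine ⟨⟨?_, σ r, hg.image σ⟩, mem_image_of_mem _ hmem⟩
  intro a ha
  rw [mem_image] at ha
  obtain ⟨b, hb, rfl⟩ := ha
  have := hE hb
  rw [mem_insert] at this
  rcases this with rfl | h
  · exact mem_insert_self _ _
  · exact mem_insert_of_mem (hσ b h)

theorem sum_TE_map (E : Finset (Sym2 V)) (e : Sym2 V) (σ : Equiv.Perm V)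
    (hσ : ∀ e ∈ E, Sym2.map σ e ∈ E) (hσ' : ∀ e ∈ E, Sym2.map σ.symm e ∈ E) (f : ℕ → ℕ) :
    ∑ p ∈ TE E (Sym2.map σ e), f p.1.card = ∑ p ∈ TE E e, f p.1.card := by
  classical
  symm
  have hmm : ∀ (τ : Equiv.Perm V) (a : Sym2 V), Sym2.map τ.symm (Sym2.map τ a) = a := by
    intro τ a
    rw [Sym2.map_map]
    have : (τ.symm : V → V) ∘ τ = id := by funext x; simp
    rw [this, Sym2.map_id]
    rfl
  refine Finset.sum_nbij' (fun p => (p.1.image σ, p.2.image (Sym2.map σ)))
    (fun p => (p.1.image σ.symm, p.2.image (Sym2.map σ.symm))) ?_ ?_ ?_ ?_ ?_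
  · intro p hp
    exact TE_map_mem E e σ hσ p hp
  · intro p hp
    have := TE_map_mem E (Sym2.map σ e) σ.symm hσ' p hp
    rw [hmm σ e] at this
    exact this
  · intro p _
    refine Prod.ext ?_ ?_
    · simp only [image_image]
      have : (σ.symm : V → V) ∘ σ = id := by funext x; simp
      rw [this, image_id]
    · simp only [image_image]
      have : Sym2.map σ.symm ∘ Sym2.map σ = (id : Sym2 V → Sym2 V) := by
        funext a; exact hmm σ a
      rw [this, image_id]
  · intro p _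
    refine Prod.ext ?_ ?_
    · simp only [image_image]
      have : (σ : V → V) ∘ σ.symm = id := by funext x; simp
      rw [this, image_id]
    · simp only [image_image]
      have : Sym2.map σ ∘ Sym2.map σ.symm = (id : Sym2 V → Sym2 V) := by
        funext a; exact hmm σ.symm a
      rw [this, image_id]
  · intro p _
    simp only
    rw [card_image_of_injective _ σ.injective]

end Edge

end Pool.Agent.LibMST
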