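import Pool.Agent.LibMST.Table
import Pool.Agent.LibMST.Sums

set_option autoImplicit false

namespace Pool.Agent.LibMST

open Finset

theorem adjb_symm : ∀ x y : Fin 15, adjb x.val y.val = true → adjb y.val x.val = true := by
  decide +kernel

theorem adjb_irrefl : ∀ x : Fin 15, adjb x.val x.val = false := by
  decide +kernel

/-- The graph: three copies of `K₅` minus an edge, joined in a ring by three further edges. -/
def GG : SimpleGraph (Fin 15) where
  Adj x y := adjb x.val y.val = true
  symm := ⟨fun x y h => adjb_symm x y h⟩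
  loopless := ⟨fun x h => by rw [adjb_irrefl] at h; exact Bool.false_ne_true h⟩

instance : DecidableRel GG.Adj := fun x y => inferInstanceAs (Decidable (adjb x.val y.val = true))

instance : DecidableRel adjP := fun x y => inferInstanceAs (Decidable (adjb x.val y.val = true))

/-- The edge set of the graph. -/
noncomputable def EE : Finset (Sym2 (Fin 15)) := by
  classical exact univ.filter (fun e => e ∈ GG.edgeSet)

theorem mem_EE (e : Sym2 (Fin 15)) : e ∈ EE ↔ e ∈ GG.edgeSet := by
  classical
  unfold EE
  rw [mem_filter]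
  simp

theorem mk_mem_EE (x y : Fin 15) : s(x, y) ∈ EE ↔ adjP x y := by
  rw [mem_EE, SimpleGraph.mem_edgeSet]
  rfl

theorem adjP_symm {x y : Fin 15} (h : adjP x y) : adjP y x := adjb_symm x y h

theorem adjP_ne {x y : Fin 15} (h : adjP x y) : x ≠ y := by
  rintro rfl
  unfold adjP at h
  rw [adjb_irrefl] at h
  exact Bool.false_ne_true h

/-- Start state for trees containing the edge between `u` and `v`. -/
def sPair (u v w : Fin 15) : ℕ :=
  if w = u ∨ w = v then 0 else 1 + (if adjP u w then 1 else 0) + (if adjP v w then 1 else 0)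

theorem rel_pair (u v : Fin 15) (huv : u ≠ v) : Rel adjP (insert v {u}) EE (sPair u v) := by
  have hnz : ∀ w, sPair u v w ≠ 0 → w ≠ u ∧ w ≠ v := by
    intro w hw
    unfold sPair at hw
    split_ifs at hw with h
    all_goals first | exact absurd rfl hw | exact not_or.mp h
  have hz : ∀ w, sPair u v w = 0 → w = u ∨ w = v := by
    intro w hw
    unfold sPair at hw
    by_contra h
    rw [if_neg h] at hw
    omega
  refine ⟨?_, ?_, ?_, ?_, ?_⟩
  · intro w hw
    obtain ⟨h1, h2⟩ := hnz w hw
    simp [h1, h2]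
  · intro a b _ _ _
    exact mk_mem_EE a b
  · intro w hw
    obtain ⟨h1, h2⟩ := hnz w hw
    have hs : sPair u v w = 1 + (if adjP u w then 1 else 0) + (if adjP v w then 1 else 0) := by
      unfold sPair
      rw [if_neg (by rw [not_or]; exact ⟨h1, h2⟩)]
    rw [hs, filter_insert, filter_singleton]
    simp only [mk_mem_EE]
    have hvu : v ≠ u := fun h => huv h.symm
    by_cases ha : adjP u w <;> by_cases hb : adjP v w <;> simp [ha, hb, hvu]
  · intro x _ w hw hw0 _
    rcases hz w hw0 with h | h <;> simp [h] at hw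
  · intro w y _ hy hy0 _
    rcases hz y hy0 with h | h <;> simp [h] at hy

/-- Start state for trees with smallest vertex `r`. -/
def sRoot (r w : Fin 15) : ℕ :=
  if w ≤ r then 0 else 1 + (if adjP r w then 1 else 0)

theorem mem_geE_iff {V : Type*} [Fintype V] [LinearOrder V] (E : Finset (Sym2 V)) (r : V)
    (e : Sym2 V) : e ∈ geE E r ↔ e ∈ E ∧ ∀ v ∈ e, r ≤ v := by
  unfold geE
  rw [mem_filter]

theorem mem_geE (r x y : Fin 15) : s(x, y) ∈ geE EE r ↔ adjP x y ∧ r ≤ x ∧ r ≤ y := by
  rw [mem_geE_iff, mk_mem_EE]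
  simp

theorem rel_root (r : Fin 15) : Rel adjP {r} (geE EE r) (sRoot r) := by
  have hnz : ∀ w, sRoot r w ≠ 0 → r < w := by
    intro w hw
    unfold sRoot at hw
    by_contra h
    rw [if_pos (not_lt.mp h)] at hw
    exact hw rfl
  have hz : ∀ w, sRoot r w = 0 → w ≤ r := by
    intro w hw
    unfold sRoot at hw
    by_contra h
    rw [if_neg h] at hw
    omega
  refine ⟨?_, ?_, ?_, ?_, ?_⟩
  · intro w hw
    have := hnz w hw
    simp [this.ne']
  · intro a b _ ha hb
    rw [mem_geE]
    exact ⟨fun h => h.1, fun h => ⟨h, (hnz a ha).le, (hnz b hb).le⟩⟩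
  · intro w hw
    have h1 := hnz w hw
    have hs : sRoot r w = 1 + (if adjP r w then 1 else 0) := by
      unfold sRoot
      rw [if_neg (not_le.mpr h1)]
    rw [hs, filter_singleton]
    simp only [mem_geE]
    by_cases ha : adjP r w <;> simp [ha, h1.le]
  · intro x hx w hw hw0 hm
    rw [mem_singleton] at hx hw
    rw [mem_geE] at hm
    exact hw (le_antisymm (hz w hw0) hm.2.2)
  · intro w y _ hy hy0 hm
    rw [mem_singleton] at hy
    rw [mem_geE] at hm
    exact hy (le_antisymm (hz y hy0) hm.2.2)

/-- Numeric version of `sPair`. -/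
def sPairN (u v w : ℕ) : ℕ :=
  cond (or (Nat.beq w u) (Nat.beq w v)) 0
    (Nat.add (Nat.add 1 (cond (adjb u w) 1 0)) (cond (adjb v w) 1 0))

/-- Numeric version of `sRoot`. -/
def sRootN (r w : ℕ) : ℕ := cond (Nat.ble w r) 0 (Nat.add 1 (cond (adjb r w) 1 0))

theorem sPairN_spec : ∀ u v w : Fin 15, sPairN u.val v.val w.val = sPair u v w := by
  decide +kernel

theorem sRootN_spec : ∀ r w : Fin 15, sRootN r.val w.val = sRoot r w := by
  decide +kernel

theorem val_pair (T n i : ℕ) (hT : checkT T n = true) (hi : i ≤ n) (u v : Fin 15)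
    (hc : cleanB (sPairN u.val v.val) (dig (fCode (slot T i))) = true) (huv : u ≠ v)
    (hadj : ¬ adjP u v) :
    (TE EE s(u, v)).card = fN (slot T i) ∧
      ∑ p ∈ TE EE s(u, v), p.1.card = fS (slot T i) + 2 * fN (slot T i) := by
  have hval := table_spec T n hT i hi
  have hval2 : Val adjP (sPair u v) (fN (slot T i)) (fS (slot T i)) := by
    apply hval.clean
    intro y
    have := cleanB_spec _ _ hc y
    rw [sPairN_spec] at this
    exact this
  have hne : s(u, v) ∉ EE := by rw [mk_mem_EE]; exact hadj
  have hg : Grow u (insert v {u}) (insert s(u, v) ∅) :=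
    Grow.base.step (mem_singleton_self u) (by simpa using huv.symm)
  have hdis : Disjoint EE (insert s(u, v) ∅) := by
    rw [disjoint_insert_right]
    exact ⟨hne, disjoint_empty_right _⟩
  have h := hval2 u _ _ EE hg hdis (rel_pair u v huv)
  rw [TE_card_eq EE u v hne, TE_sum_eq EE u v hne]
  rw [← h.1, ← h.2]
  exact ⟨rfl, rfl⟩

theorem val_root (T n i : ℕ) (hT : checkT T n = true) (hi : i ≤ n) (r : Fin 15)
    (hc : cleanB (sRootN r.val) (dig (fCode (slot T i))) = true) :
    cN r ∅ (geE EE r) = fN (slot T i) ∧ cS r ∅ (geE EE r) = fS (slot T i) := by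
  have hval := table_spec T n hT i hi
  have hval2 : Val adjP (sRoot r) (fN (slot T i)) (fS (slot T i)) := by
    apply hval.clean
    intro y
    have := cleanB_spec _ _ hc y
    rw [sRootN_spec] at this
    exact this
  exact hval2 r _ _ (geE EE r) Grow.base (disjoint_empty_right _) (rel_root r)

end Pool.Agent.LibMST
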