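import Mathlib

set_option autoImplicit false

namespace Pool.Agent.LibMST

open Finset

section Grow

variable {V : Type*} [DecidableEq V]

/-- `Grow r C B`: the edge set `B` is the edge set of a tree with vertex set `C` containing `r`;
such trees are built from the single vertex `r` by adding leaves. -/
inductive Grow (r : V) : Finset V → Finset (Sym2 V) → Prop
  | base : Grow r {r} ∅
  | step {C : Finset V} {B : Finset (Sym2 V)} {x w : V} (h : Grow r C B) (hx : x ∈ C)
      (hw : w ∉ C) : Grow r (insert w C) (insert s(x, w) B)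

theorem Grow.root_mem {r : V} {C : Finset V} {B : Finset (Sym2 V)} (h : Grow r C B) : r ∈ C := by
  induction h with
  | base => simp
  | step h hx hw ih => exact mem_insert_of_mem ih

theorem Grow.edge_sub {r : V} {C : Finset V} {B : Finset (Sym2 V)} (h : Grow r C B) :
    ∀ e ∈ B, ∀ v ∈ e, v ∈ C := by
  induction h with
  | base => simp
  | step h hx hw ih =>
    intro e he v hv
    rw [mem_insert] at he
    rcases he with rfl | he
    · rw [Sym2.mem_iff] at hv
      rcases hv with rfl | rfl
      · exact mem_insert_of_mem hx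
      · exact mem_insert_self _ _
    · exact mem_insert_of_mem (ih e he v hv)

theorem Grow.card_eq {r : V} {C : Finset V} {B : Finset (Sym2 V)} (h : Grow r C B) :
    B.card + 1 = C.card := by
  induction h with
  | base => simp
  | @step C B x w h hx hw ih =>
    have hne : s(x, w) ∉ B := fun hm => hw (h.edge_sub _ hm w (Sym2.mem_mk_right x w))
    rw [card_insert_of_notMem hne, card_insert_of_notMem hw, ih]

theorem Grow.cover {r : V} {C : Finset V} {B : Finset (Sym2 V)} (h : Grow r C B) :
    ∀ v ∈ C, v = r ∨ ∃ e ∈ B, v ∈ e := by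
  induction h with
  | base => intro v hv; left; simpa using hv
  | @step C B x w h hx hw ih =>
    intro v hv
    rw [mem_insert] at hv
    rcases hv with rfl | hv
    · exact Or.inr ⟨s(x, v), mem_insert_self _ _, Sym2.mem_mk_right x v⟩
    · rcases ih v hv with h1 | ⟨e, he, hve⟩
      · exact Or.inl h1
      · exact Or.inr ⟨e, mem_insert_of_mem he, hve⟩

theorem Grow.sub_of_closed {r : V} {C : Finset V} {B : Finset (Sym2 V)} (h : Grow r C B)
    (D : V → Prop) (hr : D r) (hD : ∀ e ∈ B, (∀ v ∈ e, D v) ∨ (∀ v ∈ e, ¬ D v)) :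
    ∀ v ∈ C, D v := by
  induction h with
  | base => intro v hv; rw [mem_singleton] at hv; rw [hv]; exact hr
  | @step C B x w h hx hw ih =>
    have ih' := ih (fun e he => hD e (mem_insert_of_mem he))
    intro v hv
    rw [mem_insert] at hv
    rcases hv with rfl | hv
    · rcases hD s(x, v) (mem_insert_self _ _) with h1 | h1
      · exact h1 v (Sym2.mem_mk_right x v)
      · exact absurd (ih' x hx) (h1 x (Sym2.mem_mk_left x v))
    · exact ih' v hv

theorem Grow.attach {x w : V} {C : Finset V} {B : Finset (Sym2 V)} (h : Grow x C B)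
    (hw : w ∉ C) : Grow w (insert w C) (insert s(x, w) B) := by
  induction h with
  | base =>
    have hxw : x ∉ ({w} : Finset V) := by
      simp only [mem_singleton] at hw ⊢
      exact fun h => hw h.symm
    have h2 := Grow.step (Grow.base (r := w)) (mem_singleton_self w) hxw
    have e1 : insert w ({x} : Finset V) = insert x {w} := by
      rw [Finset.pair_comm]
    rw [e1, Sym2.eq_swap]
    exact h2
  | @step C B x' w' h hx' hw' ih =>
    have hwC : w ∉ C := fun hm => hw (mem_insert_of_mem hm)
    have hne : w' ≠ w := fun he => hw (he ▸ mem_insert_self _ _)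
    have h1 := ih hwC
    have h2 : w' ∉ insert w C := by
      rw [mem_insert]
      rintro (h3 | h3)
      · exact hne h3
      · exact hw' h3
    have h3 := Grow.step h1 (mem_insert_of_mem hx') h2
    rw [insert_comm w' w C, insert_comm s(x', w') s(x, w) B] at h3
    exact h3

theorem Grow.reroot {r : V} {C : Finset V} {B : Finset (Sym2 V)} (h : Grow r C B) :
    ∀ r' ∈ C, Grow r' C B := by
  induction h with
  | base => intro r' hr'; rw [mem_singleton] at hr'; rw [hr']; exact Grow.base
  | @step C B x w h hx hw ih =>
    intro r' hr'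
    rw [mem_insert] at hr'
    rcases hr' with rfl | hr'
    · exact (ih x hx).attach hw
    · exact (ih r' hr').step hx hw

theorem Grow.verts_unique {r : V} {C C' : Finset V} {B : Finset (Sym2 V)} (h : Grow r C B)
    (h' : Grow r C' B) : C = C' := by
  have key : ∀ {C C' : Finset V}, Grow r C B → Grow r C' B → C ⊆ C' := by
    intro C C' h h' v hv
    rcases h.cover v hv with rfl | ⟨e, he, hve⟩
    · exact h'.root_mem
    · exact h'.edge_sub e he v hve
  exact Subset.antisymm (key h h') (key h' h)

end Grow

section Count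

variable {V : Type*} [DecidableEq V]

open Classical in
/-- Number of ways to extend `B` to the edge set of a tree containing `r` by edges of `A`. -/
noncomputable def cN (r : V) (B A : Finset (Sym2 V)) : ℕ :=
  ∑ F ∈ A.powerset, if ∃ C, Grow r C (B ∪ F) then 1 else 0

open Classical in
/-- Total number of added edges in all these extensions. -/
noncomputable def cS (r : V) (B A : Finset (Sym2 V)) : ℕ :=
  ∑ F ∈ A.powerset, if ∃ C, Grow r C (B ∪ F) then F.card else 0

theorem cN_rec (r : V) (B A : Finset (Sym2 V)) (e : Sym2 V) (he : e ∈ A) :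
    cN r B A = cN r B (A.erase e) + cN r (insert e B) (A.erase e) := by
  classical
  unfold cN
  conv_lhs => rw [← insert_erase he]
  rw [Finset.sum_powerset_insert (notMem_erase e A)]
  congr 1
  apply Finset.sum_congr rfl
  intro F _
  rw [union_insert, insert_union]

theorem cS_rec (r : V) (B A : Finset (Sym2 V)) (e : Sym2 V) (he : e ∈ A) :
    cS r B A = cS r B (A.erase e) + cS r (insert e B) (A.erase e) +
      cN r (insert e B) (A.erase e) := by
  classical
  unfold cS cN
  conv_lhs => rw [← insert_erase he]
  rw [Finset.sum_powerset_insert (notMem_erase e A), add_assoc]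
  congr 1
  rw [← Finset.sum_add_distrib]
  apply Finset.sum_congr rfl
  intro F hF
  have heF : e ∉ F := fun h => notMem_erase e A ((mem_powerset.mp hF) h)
  rw [union_insert, insert_union, card_insert_of_notMem heF]
  split_ifs <;> simp

theorem ext_closed {r : V} {C : Finset V} {B A : Finset (Sym2 V)} (hB : Grow r C B)
    (hd : Disjoint A B) (hA : ∀ e ∈ A, (∀ v ∈ e, v ∈ C) ∨ (∀ v ∈ e, v ∉ C))
    (F : Finset (Sym2 V)) (hF : F ⊆ A) : (∃ C', Grow r C' (B ∪ F)) ↔ F = ∅ := by
  constructor
  · rintro ⟨C', hC'⟩
    have h1 : C' ⊆ C := by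
      intro v hv
      refine hC'.sub_of_closed (fun v => v ∈ C) hB.root_mem ?_ v hv
      intro e he
      rw [mem_union] at he
      rcases he with he | he
      · exact Or.inl (hB.edge_sub e he)
      · exact hA e (hF he)
    have h2 : C ⊆ C' := by
      intro v hv
      rcases hB.cover v hv with rfl | ⟨e, he, hve⟩
      · exact hC'.root_mem
      · exact hC'.edge_sub e (mem_union_left _ he) v hve
    have h3 : C' = C := Subset.antisymm h1 h2
    have h4 := hC'.card_eq
    have h5 := hB.card_eq
    rw [h3] at h4
    have hdF : Disjoint B F := (Disjoint.mono_left hF hd).symm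
    rw [card_union_of_disjoint hdF] at h4
    have : F.card = 0 := by omega
    exact card_eq_zero.mp this
  · rintro rfl
    exact ⟨C, by simpa using hB⟩

theorem cN_closed {r : V} {C : Finset V} {B A : Finset (Sym2 V)} (hB : Grow r C B)
    (hd : Disjoint A B) (hA : ∀ e ∈ A, (∀ v ∈ e, v ∈ C) ∨ (∀ v ∈ e, v ∉ C)) :
    cN r B A = 1 ∧ cS r B A = 0 := by
  classical
  have key := ext_closed hB hd hA
  constructor
  · unfold cN
    rw [Finset.sum_eq_single ∅]
    · rw [if_pos ((key ∅ (empty_subset _)).mpr rfl)]
    · intro F hF hne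
      rw [if_neg]
      intro h
      exact hne ((key F (mem_powerset.mp hF)).mp h)
    · intro h
      exact absurd (empty_mem_powerset A) h
  · unfold cS
    apply Finset.sum_eq_zero
    intro F hF
    by_cases h : ∃ C', Grow r C' (B ∪ F)
    · have := (key F (mem_powerset.mp hF)).mp h
      subst this
      simp
    · rw [if_neg h]

/-- The state function `s` describes the position `(C, A)`: `s w` is zero for vertices in `C`
and for vertices that can no longer be reached, and otherwise one more than the number of
available edges between `w` and `C`; between vertices with nonzero state all edges of the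
graph are available. -/
structure Rel (adj : V → V → Prop) (C : Finset V) (A : Finset (Sym2 V)) (s : V → ℕ) : Prop where
  out : ∀ w, s w ≠ 0 → w ∉ C
  adjA : ∀ w y, w ≠ y → s w ≠ 0 → s y ≠ 0 → (s(w, y) ∈ A ↔ adj w y)
  mult : ∀ w, s w ≠ 0 → (C.filter (fun x => s(x, w) ∈ A)).card + 1 = s w
  deadC : ∀ x ∈ C, ∀ w, w ∉ C → s w = 0 → s(x, w) ∉ A
  deadO : ∀ w y, s w ≠ 0 → y ∉ C → s y = 0 → s(w, y) ∉ A

theorem Rel.clean {adj : V → V → Prop} {C : Finset V} {A : Finset (Sym2 V)} {s : V → ℕ}
    (h : Rel adj C A s) (d : V → ℕ)
    (hd : ∀ y, d y = s y ∨ (s y = 1 ∧ d y = 0 ∧ ∀ z, adj y z → d z = 0)) : Rel adj C A d := by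
  have hds : ∀ y, d y ≠ 0 → d y = s y := by
    intro y hy
    rcases hd y with h1 | h1
    · exact h1
    · exact absurd h1.2.1 hy
  refine ⟨?_, ?_, ?_, ?_, ?_⟩
  · intro w hw
    exact h.out w (by rw [← hds w hw]; exact hw)
  · intro w y hwy hw hy
    exact h.adjA w y hwy (by rw [← hds w hw]; exact hw) (by rw [← hds y hy]; exact hy)
  · intro w hw
    have := hds w hw
    rw [this]
    exact h.mult w (by rw [← this]; exact hw)
  · intro x hx w hwC hw
    rcases hd w with h1 | h1
    · exact h.deadC x hx w hwC (by rw [← h1]; exact hw)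
    · intro hmem
      have h2 := h.mult w (by rw [h1.1]; exact one_ne_zero)
      rw [h1.1] at h2
      have h3 : (C.filter (fun x => s(x, w) ∈ A)).card = 0 := by omega
      rw [card_eq_zero] at h3
      have : x ∈ C.filter (fun x => s(x, w) ∈ A) := mem_filter.mpr ⟨hx, hmem⟩
      rw [h3] at this
      exact notMem_empty _ this
  · intro w y hw hyC hy
    have hw' : s w ≠ 0 := by rw [← hds w hw]; exact hw
    rcases hd y with h1 | h1
    · exact h.deadO w y hw' hyC (by rw [← h1]; exact hy)
    · intro hmem
      have hne : y ≠ w := by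
        rintro rfl
        exact hw hy
      have hsy : s y ≠ 0 := by rw [h1.1]; exact one_ne_zero
      rw [Sym2.eq_swap] at hmem
      have h2 := (h.adjA y w hne hsy hw').mp hmem
      exact hw (h1.2.2 w h2)

theorem Rel.eraseOne {adj : V → V → Prop} {C : Finset V} {A : Finset (Sym2 V)} {s : V → ℕ}
    {w x : V} {m : ℕ} (h : Rel adj C A (Function.update s w (m + 2))) (hx : x ∈ C)
    (he : s(x, w) ∈ A) : Rel adj C (A.erase s(x, w)) (Function.update s w (m + 1)) := by
  have hwC : w ∉ C := h.out w (by simp)
  have hnz : ∀ y, Function.update s w (m + 1) y ≠ 0 → Function.update s w (m + 2) y ≠ 0 := by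
    intro y hy
    by_cases hyw : y = w
    · subst hyw; simp
    · simpa [Function.update_of_ne hyw] using hy
  have hz : ∀ y, Function.update s w (m + 1) y = 0 → Function.update s w (m + 2) y = 0 := by
    intro y hy
    by_cases hyw : y = w
    · subst hyw; simp at hy
    · simpa [Function.update_of_ne hyw] using hy
  refine ⟨?_, ?_, ?_, ?_, ?_⟩
  · intro y hy
    exact h.out y (hnz y hy)
  · intro a b hab ha hb
    rw [← h.adjA a b hab (hnz a ha) (hnz b hb), mem_erase]
    constructor
    · exact fun h => h.2
    · intro hm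
      refine ⟨?_, hm⟩
      intro heq
      have haC := h.out a (hnz a ha)
      have hbC := h.out b (hnz b hb)
      rcases Sym2.eq_iff.mp heq with ⟨h1, _⟩ | ⟨_, h1⟩
      · exact haC (h1 ▸ hx)
      · exact hbC (h1 ▸ hx)
  · intro y hy
    have hm := h.mult y (hnz y hy)
    by_cases hyw : y = w
    · subst hyw
      have hfil : C.filter (fun z => s(z, y) ∈ A.erase s(x, y)) =
          (C.filter (fun z => s(z, y) ∈ A)).erase x := by
        ext z
        simp only [mem_filter, mem_erase]
        constructor
        · rintro ⟨hz, hne, hmem⟩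
          refine ⟨?_, hz, hmem⟩
          rintro rfl
          exact hne rfl
        · rintro ⟨hne, hz, hmem⟩
          refine ⟨hz, ?_, hmem⟩
          intro heq
          rcases Sym2.eq_iff.mp heq with ⟨h1, _⟩ | ⟨h1, h2⟩
          · exact hne h1
          · exact hwC (h2 ▸ hx)
      rw [hfil, card_erase_of_mem (mem_filter.mpr ⟨hx, he⟩)]
      simp only [Function.update_self] at hm ⊢
      omega
    · rw [Function.update_of_ne hyw] at hm ⊢
      have hfil : C.filter (fun z => s(z, y) ∈ A.erase s(x, w)) =
          C.filter (fun z => s(z, y) ∈ A) := by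
        apply filter_congr
        intro z hz
        rw [mem_erase]
        constructor
        · exact fun h => h.2
        · intro hmem
          refine ⟨?_, hmem⟩
          intro heq
          rcases Sym2.eq_iff.mp heq with ⟨_, h1⟩ | ⟨h1, _⟩
          · exact hyw h1
          · exact hwC (h1 ▸ hz)
      rw [hfil]
      exact hm
  · intro a ha b hb hb0 hmem
    exact h.deadC a ha b hb (hz b hb0) (mem_of_mem_erase hmem)
  · intro a b ha hb hb0 hmem
    exact h.deadO a b (hnz a ha) hb (hz b hb0) (mem_of_mem_erase hmem)

open Classical in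
/-- The state after `w` has been joined to the tree. -/
noncomputable def scon (adj : V → V → Prop) (s : V → ℕ) (w y : V) : ℕ :=
  if y = w then 0 else if adj w y ∧ s y ≠ 0 then s y + 1 else s y

theorem scon_update (adj : V → V → Prop) (s : V → ℕ) (w : V) (k : ℕ) :
    scon adj (Function.update s w k) w = scon adj s w := by
  funext y
  unfold scon
  by_cases hy : y = w
  · simp [hy]
  · have h1 : Function.update s w k y = s y := Function.update_of_ne hy _ _
    rw [if_neg hy, if_neg hy, h1]

theorem Rel.join {adj : V → V → Prop} {C : Finset V} {A : Finset (Sym2 V)} {s : V → ℕ}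
    {w x : V} (h : Rel adj C A s) (hw : s w ≠ 0) (hx : x ∈ C) :
    Rel adj (insert w C) (A.erase s(x, w)) (scon adj s w) := by
  have hwC : w ∉ C := h.out w hw
  have hnz : ∀ y, scon adj s w y ≠ 0 → y ≠ w ∧ s y ≠ 0 := by
    intro y hy
    unfold scon at hy
    by_cases hyw : y = w
    · simp [hyw] at hy
    · refine ⟨hyw, ?_⟩
      intro h0
      simp [hyw, h0] at hy
  have hz : ∀ y, y ≠ w → scon adj s w y = 0 → s y = 0 := by
    intro y hyw hy
    unfold scon at hy
    rw [if_neg hyw] at hy
    split_ifs at hy with h1
    exact hy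
  refine ⟨?_, ?_, ?_, ?_, ?_⟩
  · intro y hy
    obtain ⟨hyw, hsy⟩ := hnz y hy
    rw [mem_insert]
    rintro (h1 | h1)
    · exact hyw h1
    · exact h.out y hsy h1
  · intro a b hab ha hb
    obtain ⟨haw, hsa⟩ := hnz a ha
    obtain ⟨hbw, hsb⟩ := hnz b hb
    rw [← h.adjA a b hab hsa hsb, mem_erase]
    constructor
    · exact fun h => h.2
    · intro hm
      refine ⟨?_, hm⟩
      intro heq
      rcases Sym2.eq_iff.mp heq with ⟨_, h1⟩ | ⟨h1, _⟩
      · exact hbw h1
      · exact haw h1
  · intro y hy
    obtain ⟨hyw, hsy⟩ := hnz y hy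
    have hyC := h.out y hsy
    have hm := h.mult y hsy
    have hmemC : ∀ z ∈ C, (s(z, y) ∈ A.erase s(x, w) ↔ s(z, y) ∈ A) := by
      intro z hz
      rw [mem_erase]
      constructor
      · exact fun h => h.2
      · intro hmem
        refine ⟨?_, hmem⟩
        intro heq
        rcases Sym2.eq_iff.mp heq with ⟨_, h1⟩ | ⟨h1, _⟩
        · exact hyw h1
        · exact hwC (h1 ▸ hz)
    have hmemw : s(w, y) ∈ A.erase s(x, w) ↔ adj w y := by
      rw [← h.adjA w y (Ne.symm hyw) hw hsy, mem_erase]
      constructor
      · exact fun h => h.2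
      · intro hmem
        refine ⟨?_, hmem⟩
        intro heq
        rcases Sym2.eq_iff.mp heq with ⟨_, h1⟩ | ⟨_, h1⟩
        · exact hyw h1
        · exact hyC (h1 ▸ hx)
    rw [filter_insert]
    have hfil : C.filter (fun z => s(z, y) ∈ A.erase s(x, w)) =
        C.filter (fun z => s(z, y) ∈ A) := filter_congr hmemC
    unfold scon
    rw [if_neg hyw]
    by_cases hadj : adj w y
    · rw [if_pos (hmemw.mpr hadj), if_pos ⟨hadj, hsy⟩, hfil, card_insert_of_notMem, hm]
      intro hmem
      exact hwC (mem_filter.mp hmem).1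
    · rw [if_neg (fun h => hadj (hmemw.mp h)), if_neg (fun h => hadj h.1), hfil, hm]
  · intro a ha b hb hb0 hmem
    have hmem' := mem_of_mem_erase hmem
    rw [mem_insert, not_or] at hb
    have hb0' := hz b hb.1 hb0
    rw [mem_insert] at ha
    rcases ha with rfl | ha
    · exact h.deadO a b hw hb.2 hb0' hmem'
    · exact h.deadC a ha b hb.2 hb0' hmem'
  · intro a b ha hb hb0 hmem
    have hmem' := mem_of_mem_erase hmem
    obtain ⟨haw, hsa⟩ := hnz a ha
    rw [mem_insert, not_or] at hb
    exact h.deadO a b hsa hb.2 (hz b hb.1 hb0) hmem'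

/-- The assertion that positions described by `s` have the counts `N` and `S`. -/
def Val (adj : V → V → Prop) (s : V → ℕ) (N S : ℕ) : Prop :=
  ∀ (r : V) (C : Finset V) (B A : Finset (Sym2 V)), Grow r C B → Disjoint A B →
    Rel adj C A s → cN r B A = N ∧ cS r B A = S

theorem Val.zero (adj : V → V → Prop) : Val adj (fun _ : V => 0) 1 0 := by
  intro r C B A hB hd hR
  apply cN_closed hB hd
  intro e he
  induction e with
  | _ a b =>
    by_cases ha : a ∈ C
    · by_cases hb : b ∈ C
      · left
        intro v hv
        rcases Sym2.mem_iff.mp hv with rfl | rfl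
        · exact ha
        · exact hb
      · exact absurd he (hR.deadC a ha b hb rfl)
    · by_cases hb : b ∈ C
      · rw [Sym2.eq_swap] at he
        exact absurd he (hR.deadC b hb a ha rfl)
      · right
        intro v hv
        rcases Sym2.mem_iff.mp hv with rfl | rfl
        · exact ha
        · exact hb

theorem Val.clean {adj : V → V → Prop} {s d : V → ℕ} {N S : ℕ} (h : Val adj d N S)
    (hd : ∀ y, d y = s y ∨ (s y = 1 ∧ d y = 0 ∧ ∀ z, adj y z → d z = 0)) : Val adj s N S :=
  fun r C B A hB hdis hR => h r C B A hB hdis (hR.clean d hd)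

theorem Val.step {adj : V → V → Prop} {s : V → ℕ} {w : V} {Nd Sd Nc Sc : ℕ}
    (hd : Val adj (Function.update s w 1) Nd Sd) (hc : Val adj (scon adj s w) Nc Sc) (m : ℕ) :
    Val adj (Function.update s w (m + 1)) (Nd + m * Nc) (Sd + m * (Sc + Nc)) := by
  induction m with
  | zero => simpa using hd
  | succ m ih =>
    intro r C B A hB hdis hR
    have hmult := hR.mult w (by simp)
    rw [Function.update_self] at hmult
    have hpos : 0 < (C.filter (fun x => s(x, w) ∈ A)).card := by omega
    obtain ⟨x, hx⟩ := card_pos.mp hpos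
    rw [mem_filter] at hx
    obtain ⟨hxC, he⟩ := hx
    have hwC : w ∉ C := hR.out w (by simp)
    have heB : s(x, w) ∉ B := fun hm => hwC (hB.edge_sub _ hm w (Sym2.mem_mk_right x w))
    have h1 := ih r C B (A.erase s(x, w)) hB (hdis.mono_left (erase_subset _ _))
      (hR.eraseOne hxC he)
    have hR2 : Rel adj (insert w C) (A.erase s(x, w)) (scon adj s w) := by
      have := hR.join (w := w) (x := x) (by simp) hxC
      rwa [scon_update] at this
    have hdis2 : Disjoint (A.erase s(x, w)) (insert s(x, w) B) := by
      rw [disjoint_insert_right]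
      exact ⟨notMem_erase _ _, hdis.mono_left (erase_subset _ _)⟩
    have h2 := hc r (insert w C) (insert s(x, w) B) (A.erase s(x, w)) (hB.step hxC hwC) hdis2 hR2
    rw [cN_rec r B A _ he, cS_rec r B A _ he, h1.1, h1.2, h2.1, h2.2]
    constructor <;> ring

end Count

end Pool.Agent.LibMST
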