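import Pool.Agent.LibMST.Cert
import Pool.Agent.LibMST.Theory

set_option autoImplicit false

namespace Pool.Agent.LibMST

open Finset

theorem allB_iff (p : ℕ → Bool) (n : ℕ) : allB p n = true ↔ ∀ k < n, p k = true := by
  induction n with
  | zero => simp [allB]
  | succ n ih =>
    have h : allB p (n + 1) = and (p n) (allB p n) := rfl
    rw [h, Bool.and_eq_true, ih]
    constructor
    · rintro ⟨h1, h2⟩ k hk
      rcases Nat.lt_succ_iff_lt_or_eq.mp hk with h3 | h3
      · exact h2 k h3
      · rw [h3]; exact h1
    · intro h1
      exact ⟨h1 n (Nat.lt_succ_self n), fun k hk => h1 k (Nat.lt_succ_of_lt hk)⟩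

/-- The adjacency relation of the graph. -/
def adjP (x y : Fin 15) : Prop := adjb x.val y.val = true

theorem cleanB_spec (s d : ℕ → ℕ) (h : cleanB s d = true) (y : Fin 15) :
    d y.val = s y.val ∨ (s y.val = 1 ∧ d y.val = 0 ∧ ∀ z : Fin 15, adjP y z → d z.val = 0) := by
  unfold cleanB at h
  rw [allB_iff] at h
  have h1 := h y.val y.isLt
  rw [Bool.or_eq_true] at h1
  rcases h1 with h1 | h1
  · left
    exact Nat.eq_of_beq_eq_true h1
  · right
    rw [Bool.and_eq_true, Bool.and_eq_true, allB_iff] at h1
    refine ⟨Nat.eq_of_beq_eq_true h1.1.1, Nat.eq_of_beq_eq_true h1.1.2, ?_⟩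
    intro z hz
    have h2 := h1.2 z.val z.isLt
    rw [Bool.or_eq_true] at h2
    rcases h2 with h2 | h2
    · unfold adjP at hz
      rw [hz] at h2
      exact absurd h2 (by decide)
    · exact Nat.eq_of_beq_eq_true h2

theorem sDel_spec (s : ℕ → ℕ) (w y : Fin 15) :
    sDel s w.val y.val = Function.update (fun z : Fin 15 => s z.val) w 1 y := by
  unfold sDel
  by_cases h : y = w
  · subst h
    simp
  · have h1 : ¬ (y.val = w.val) := fun h2 => h (Fin.ext h2)
    have h2 : Nat.beq y.val w.val = false := by
      rw [← Bool.not_eq_true]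
      intro h3
      exact h1 (Nat.eq_of_beq_eq_true h3)
    rw [h2, Function.update_of_ne h]
    rfl

theorem sCon_spec (s : ℕ → ℕ) (w y : Fin 15) :
    sCon s w.val y.val = scon adjP (fun z : Fin 15 => s z.val) w y := by
  unfold sCon scon
  by_cases h : y = w
  · subst h
    simp
  · have h1 : ¬ (y.val = w.val) := fun h2 => h (Fin.ext h2)
    have h2 : Nat.beq y.val w.val = false := by
      rw [← Bool.not_eq_true]
      intro h3
      exact h1 (Nat.eq_of_beq_eq_true h3)
    rw [h2, if_neg h]
    by_cases h3 : adjP w y ∧ s y.val ≠ 0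
    · have h4 : Nat.ble 1 (s y.val) = true := by
        rw [Nat.ble_eq]
        exact Nat.one_le_iff_ne_zero.mpr h3.2
      have h5 : adjb w.val y.val = true := h3.1
      rw [if_pos h3, h4, h5]
      rfl
    · rw [if_neg h3]
      by_cases h6 : adjb w.val y.val = true
      · have h7 : s y.val = 0 := by
          by_contra h8
          exact h3 ⟨h6, h8⟩
        change _ = s y.val
        rw [h7, h6]
        rfl
      · rw [Bool.not_eq_true] at h6
        rw [h6]
        rfl

/-- The state coded by a number. -/
def st (c : ℕ) : Fin 15 → ℕ := fun w => dig c w.val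

theorem dig_zero (w : ℕ) : dig 0 w = 0 := by
  unfold dig
  have : Nat.shiftRight 0 (Nat.mul 3 w) = 0 := Nat.zero_shiftRight _
  rw [this]
  rfl

theorem table_spec (T n : ℕ) (h : checkT T n = true) : ∀ i ≤ n,
    Val adjP (st (fCode (slot T i))) (fN (slot T i)) (fS (slot T i)) := by
  unfold checkT at h
  rw [Bool.and_eq_true, Bool.and_eq_true, Bool.and_eq_true, allB_iff] at h
  obtain ⟨hc0, hN0, hS0, hall⟩ := h
  intro i
  induction i using Nat.strong_induction_on with
  | _ i ih =>
    intro hi
    rcases Nat.eq_zero_or_pos i with rfl | hpos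
    · rw [Nat.eq_of_beq_eq_true hc0, Nat.eq_of_beq_eq_true hN0, Nat.eq_of_beq_eq_true hS0]
      have : st 0 = fun _ => 0 := by
        funext w
        exact dig_zero w.val
      rw [this]
      exact Val.zero adjP
    · obtain ⟨k, rfl⟩ : ∃ k, i = k + 1 := ⟨i - 1, by omega⟩
      have hk := hall k (by omega)
      change checkE T (k + 1) (slot T (k + 1)) = true at hk
      unfold checkE at hk
      set e := slot T (k + 1) with he
      simp only [Bool.and_eq_true] at hk
      obtain ⟨h1, h2, h3, h4, h5, h6, h7, h8⟩ := hk
      have hw : fPiv e < 15 := by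
        have := h1
        simpa [Nat.blt_eq] using this
      have hdi : fDel e < k + 1 := by simpa [Nat.blt_eq] using h3
      have hci : fCon e < k + 1 := by simpa [Nat.blt_eq] using h4
      have h2' : 2 ≤ dig (fCode e) (fPiv e) := by
        rw [Nat.ble_eq] at h2
        exact h2
      have hD := ih (fDel e) hdi (by omega)
      have hC := ih (fCon e) hci (by omega)
      set w : Fin 15 := ⟨fPiv e, hw⟩ with hwdef
      have hD' : Val adjP (Function.update (st (fCode e)) w 1) (fN (slot T (fDel e)))
          (fS (slot T (fDel e))) := by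
        apply hD.clean
        intro y
        have := cleanB_spec _ _ h5 y
        have e1 : sDel (dig (fCode e)) (fPiv e) y.val =
            Function.update (st (fCode e)) w 1 y := sDel_spec (dig (fCode e)) w y
        rw [e1] at this
        exact this
      have hC' : Val adjP (scon adjP (st (fCode e)) w) (fN (slot T (fCon e)))
          (fS (slot T (fCon e))) := by
        apply hC.clean
        intro y
        have := cleanB_spec _ _ h6 y
        have e1 : sCon (dig (fCode e)) (fPiv e) y.val =
            scon adjP (st (fCode e)) w y := sCon_spec (dig (fCode e)) w y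
        rw [e1] at this
        exact this
      have hstep := Val.step hD' hC' (dig (fCode e) (fPiv e) - 1)
      have e2 : Function.update (st (fCode e)) w (dig (fCode e) (fPiv e) - 1 + 1) =
          st (fCode e) := by
        have e3 : dig (fCode e) (fPiv e) - 1 + 1 = st (fCode e) w := by
          change dig (fCode e) (fPiv e) - 1 + 1 = dig (fCode e) (fPiv e)
          omega
        rw [e3, Function.update_eq_self]
      rw [e2] at hstep
      rw [Nat.eq_of_beq_eq_true h7, Nat.eq_of_beq_eq_true h8]
      exact hstep

end Pool.Agent.LibMST
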